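import Pool.Agent.H55.ZF.RAT
import Pool.Agent.H27.ZF.TB

/-!
Board zf (MP_52e316_nt): the Euler product of a form (row EUL, no hypotheses).
-/

set_option autoImplicit false

namespace Pool.Agent.H55.ZF

open Pool.Agent.H27.L1.H34.GM Pool.Agent.H27.L1.H34.GZ Pool.Agent.H27.L1.H34.GU
open Pool.Agent.H27.L1.H34.GA Pool.Agent.H27.L1.H67.GZ Pool.Agent.H27.ZF

lemma cR_mul' {m : ℕ} (α β : ZM m) : cR (α * β) = cR α * cR β := by
  unfold cR
  exact Matrix.map_mul (f := Int.castRingHom ℝ)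

lemma ac_mul' {m N : ℕ} (α β : ZM m) (x : VN m N) : ac N (α * β) x = ac N α (ac N β x) := by
  unfold ac cQ
  rw [Matrix.mulVec_mulVec]
  congr 1
  exact Matrix.map_mul (f := Int.castRingHom (ZMod N))

lemma cR_det_ne {m : ℕ} {β : ZM m} (hβ : β.det ≠ 0) {g : Mat m} (hg : g.det ≠ 0) :
    (cR β * g).det ≠ 0 := by
  rw [Matrix.det_mul]
  refine mul_ne_zero ?_ hg
  have h : (cR β).det = ((β.det : ℤ) : ℝ) := by
    unfold cR
    exact (Int.cast_det β).symm
  rw [h]
  exact_mod_cast hβ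

/-- the first eigenvalue -/
lemma one_lat {m : ℕ} {T : ℕ → Finset (ZM m)} (hT : RepsZ m T) {φ : ZM m → ℂ} {t : ℕ → ℂ}
    (hφ : ∀ γ β : ZM m, IsUnit γ → β.det ≠ 0 → φ (γ * β) = φ β)
    (hH : ∀ n : ℕ, 1 ≤ n → ∀ β : ZM m, β.det ≠ 0 → ∑ α ∈ T n, φ (α * β) = t n * φ β)
    (h1 : φ 1 ≠ 0) : t 1 = 1 := by
  have h := mul_lat hT hφ hH h1 (a := 1) (b := 1) le_rfl le_rfl (Nat.coprime_one_left 1)
  rw [mul_one] at h
  -- `t 1` is `0` or `1`, and it is not `0`
  have hti1 : (⊤ : AddSubgroup (Fin m → ℤ)).index = 1 := AddSubgroup.index_top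
  have hti : (⊤ : AddSubgroup (Fin m → ℤ)).index ≠ 0 := by
    rw [hti1]
    exact one_ne_zero
  have hft : fL φ (⊤ : AddSubgroup (Fin m → ℤ)) = φ 1 := by
    have h2 : (1 : ZM m).det ≠ 0 := by
      rw [Matrix.det_one]
      exact one_ne_zero
    have h3 := fL_clo hφ h2
    have h4 : clo (1 : ZM m) = ⊤ := by
      rw [← AddSubgroup.index_eq_one, idx1 _ h2, Matrix.det_one]
      rfl
    rw [h4] at h3
    exact h3
  have e1 := hecke_lat hT hφ hH hti (n := 1) le_rfl
  have e2 : SL T (⊤ : AddSubgroup (Fin m → ℤ)) 1 = {⊤} := by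
    ext L
    rw [mem_SL hT hti le_rfl, Finset.mem_singleton, hti1, mul_one]
    constructor
    · rintro ⟨_, h3⟩
      exact AddSubgroup.index_eq_one.1 h3
    · rintro rfl
      exact ⟨le_rfl, hti1⟩
  rw [e2, Finset.sum_singleton, hft] at e1
  have e3 : (t 1 - 1) * φ 1 = 0 := by
    rw [sub_mul, one_mul, ← e1, sub_self]
  exact sub_eq_zero.1 ((mul_eq_zero.1 e3).resolve_right h1)

/-- row EUL -/
theorem pf_EUL : Pool.Agent.H27.ZF.T_EUL := by
  intro m N _ T D hS F lam hF hNZ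
  obtain ⟨g, x, hg, hx⟩ := hNZ
  have hT := hS.reps
  obtain ⟨φ, hφd⟩ : ∃ φ : ZM m → ℂ, ∀ β, φ β = F (cR β * g) (ac N β x) := ⟨_, fun _ => rfl⟩
  obtain ⟨a, ha⟩ : ∃ a : ℂ, a = ((m : ℂ) - 1) / 2 := ⟨_, rfl⟩
  obtain ⟨t, ht⟩ : ∃ t : ℕ → ℂ, ∀ n, t n = (n : ℂ) ^ a * lam n := ⟨_, fun _ => rfl⟩
  have hφ : ∀ γ β : ZM m, IsUnit γ → β.det ≠ 0 → φ (γ * β) = φ β := by
    intro γ β hγ hβ
    rw [hφd, hφd, cR_mul', ac_mul', Matrix.mul_assoc]
    exact hF.auto γ hγ _ _ (cR_det_ne hβ hg)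
  have hH : ∀ n : ℕ, 1 ≤ n → ∀ β : ZM m, β.det ≠ 0 → ∑ α ∈ T n, φ (α * β) = t n * φ β := by
    intro n hn β hβ
    have h := hF.hecke n hn (cR β * g) (ac N β x) (cR_det_ne hβ hg)
    rw [hφd, ht, ha, ← h]
    refine Finset.sum_congr rfl fun α _ => ?_
    rw [hφd, cR_mul', ac_mul', Matrix.mul_assoc]
  have h1 : φ 1 ≠ 0 := by
    rw [hφd]
    have e1 : cR (1 : ZM m) = 1 := by
      unfold cR
      exact Matrix.map_one _ (by norm_num) (by norm_num)
    have e2 : ac N (1 : ZM m) x = x := by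
      unfold ac cQ
      rw [Matrix.map_one _ (by norm_num) (by norm_num), Matrix.one_mulVec]
    rw [e1, e2, Matrix.one_mul]
    exact hx
  have hl1 : lam 1 = 1 := by
    have h := one_lat hT hφ hH h1
    rw [ht, Nat.cast_one, Complex.one_cpow, one_mul] at h
    exact h
  have hmul : ∀ b c : ℕ, b.Coprime c → lam (b * c) = lam b * lam c := by
    intro b c hbc
    rcases Nat.eq_zero_or_pos b with rfl | hb
    · have hc : c = 1 := by
        rwa [Nat.coprime_zero_left] at hbc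
      rw [hc, mul_one, hl1, mul_one]
    rcases Nat.eq_zero_or_pos c with rfl | hc
    · have hb1 : b = 1 := by
        rwa [Nat.coprime_zero_right] at hbc
      rw [hb1, one_mul, hl1, one_mul]
    have h := mul_lat hT hφ hH h1 hb hc hbc
    rw [ht, ht, ht] at h
    have hb0 : ((b : ℕ) : ℂ) ^ a ≠ 0 := by
      rw [Ne, Complex.cpow_eq_zero_iff, not_and_or]
      exact Or.inl (by exact_mod_cast hb.ne')
    have hc0 : ((c : ℕ) : ℂ) ^ a ≠ 0 := by
      rw [Ne, Complex.cpow_eq_zero_iff, not_and_or]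
      exact Or.inl (by exact_mod_cast hc.ne')
    have e : ((b * c : ℕ) : ℂ) ^ a = (b : ℂ) ^ a * (c : ℂ) ^ a := by
      rw [Nat.cast_mul]
      exact Complex.natCast_mul_natCast_cpow b c a
    rw [e] at h
    have h2 : ((b : ℂ) ^ a * (c : ℂ) ^ a) * (lam (b * c) - lam b * lam c) = 0 := by
      linear_combination h
    exact sub_eq_zero.1 ((mul_eq_zero.1 h2).resolve_left (mul_ne_zero hb0 hc0))
  -- the local factors
  have hloc : ∀ p : ℕ, ∃ q : ℕ → ℂ, p.Prime → Inv m (fun k => lam (p ^ k)) q := by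
    intro p
    by_cases hp : p.Prime
    · obtain ⟨u, hu0, hum, hu⟩ := rat_lat hT hφ hH h1 hp
      have hp0 : ((p : ℕ) : ℂ) ^ a ≠ 0 := by
        rw [Ne, Complex.cpow_eq_zero_iff, not_and_or]
        exact Or.inl (by exact_mod_cast hp.ne_zero)
      obtain ⟨c, hc⟩ : ∃ c : ℂ, c = (p : ℂ) ^ a := ⟨_, rfl⟩
      rw [← hc] at hp0
      have hpow : ∀ k : ℕ, (((p ^ k : ℕ)) : ℂ) ^ a = c ^ k := by
        intro k
        induction k with
        | zero => rw [pow_zero, pow_zero, Nat.cast_one, Complex.one_cpow]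
        | succ k ih =>
          rw [pow_succ, pow_succ, Nat.cast_mul, Complex.natCast_mul_natCast_cpow, ih, hc]
      refine ⟨fun j => u j * (c⁻¹) ^ j, fun _ => ⟨?_, ?_, ?_, ?_⟩⟩
      · simp only [pow_zero]
        exact hl1
      · simp only [pow_zero, mul_one]
        exact hu0
      · intro j hj
        simp only [hum j hj, zero_mul]
      · intro n hn
        have h := hu n hn
        have e : ∑ j ∈ Finset.range (n + 1), (u j * (c⁻¹) ^ j) * lam (p ^ (n - j)) =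
            (c⁻¹) ^ n * ∑ j ∈ Finset.range (n + 1), u j * t (p ^ (n - j)) := by
          rw [Finset.mul_sum]
          refine Finset.sum_congr rfl fun j hj => ?_
          have hj' : j ≤ n := by
            rw [Finset.mem_range] at hj
            omega
          rw [ht, hpow]
          have e2 : (c⁻¹) ^ n = (c⁻¹) ^ j * (c⁻¹) ^ (n - j) := by
            rw [← pow_add, Nat.add_sub_cancel' hj']
          have e3 : (c⁻¹) ^ (n - j) * c ^ (n - j) = 1 := by
            rw [← mul_pow, inv_mul_cancel₀ hp0, one_pow]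
          rw [e2]
          calc u j * (c⁻¹) ^ j * lam (p ^ (n - j)) =
              u j * (c⁻¹) ^ j * lam (p ^ (n - j)) * ((c⁻¹) ^ (n - j) * c ^ (n - j)) := by
                rw [e3, mul_one]
            _ = _ := by ring
        change ∑ j ∈ Finset.range (n + 1), (u j * (c⁻¹) ^ j) * lam (p ^ (n - j)) = 0
        rw [e, h, mul_zero]
    · exact ⟨fun _ => 0, fun h => absurd h hp⟩
  choose q hq using hloc
  exact ⟨q, hl1, hmul, hq⟩

end Pool.Agent.H55.ZF
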