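import Pool.Agent.H96.ZF.NEW
import Pool.Agent.H62.ZF.ESL
import Pool.Agent.H76.ZF.ESD
import Pool.Agent.H76.ZF.ESQ
import Pool.Agent.H78.ZF.LBD
import Pool.Agent.H37.ZF.LOC
import Pool.Agent.H20.ZF.MID
import Pool.Agent.H69.ZF.LQB
import Pool.Agent.H19.ZF.LTB
import Pool.Agent.H94.ZF.PRI
import Pool.Agent.H84.ZF.PRD
import Pool.Agent.H69.ZF.EPR
import Pool.Agent.H5.ZF.TAI
import Pool.Agent.H40.ZF.HTC
import Pool.Agent.H5.ZF.NZR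

/-!
Board zf (MP_52e316_nt): the deterministic part without hypotheses.
-/

set_option autoImplicit false

namespace Pool.Agent.H55.ZF

open Pool.Agent.H27.ZF

theorem c_MID : T_MID := Pool.Agent.H20.ZF.pf_MID Pool.Agent.H96.ZF.pf_NEW Pool.Agent.H62.ZF.pf_ESL
  Pool.Agent.H76.ZF.pf_ESD Pool.Agent.H76.ZF.pf_ESQ (Pool.Agent.H78.ZF.pf_LBD Pool.Agent.H37.ZF.pf_LOC)

theorem c_PRD : T_PRD := Pool.Agent.H84.ZF.pf_PRD c_MID Pool.Agent.H69.ZF.pf_LQB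
  Pool.Agent.H19.ZF.pf_LTB Pool.Agent.H94.ZF.pf_PRI

theorem c_NZR : T_NZR := Pool.Agent.H5.ZF.pf_NZR c_PRD Pool.Agent.H69.ZF.pf_EPR
  Pool.Agent.H5.ZF.pf_TAI Pool.Agent.H40.ZF.pf_HTC

end Pool.Agent.H55.ZF
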