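import Pool.Agent.H55.ZF.EUL
import Pool.Agent.H55.ZF.NZC
import Pool.Agent.H78.ZF.NZL
import Pool.Agent.H30.ZF.RSP
import Pool.Agent.H36.ZF.BS
import Pool.Agent.H47.ZF.BD
import Pool.Agent.H34.ZF.BL
import Pool.Agent.H23.ZF.LSF
import Pool.Agent.H1.ZF.SOB
import Pool.Agent.H87.ZF.Z1

/-!
Board zf (MP_52e316_nt): one level, few windows with zeros, without hypotheses.
-/

set_option autoImplicit false

namespace Pool.Agent.H55.ZF

theorem c_LSF : Pool.Agent.H27.ZF.T_LSF := Pool.Agent.H23.ZF.pf_LSF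

theorem c_BS : Pool.Agent.H27.ZF.T_BS := Pool.Agent.H36.ZF.pf_BS Pool.Agent.H30.ZF.pf_RSP c_LSF

theorem c_BD : Pool.Agent.H27.ZF.T_BD := Pool.Agent.H47.ZF.pf_BD c_LSF Pool.Agent.H1.ZF.pf_SOB

theorem c_BL : Pool.Agent.H27.ZF.T_BL := Pool.Agent.H34.ZF.pf_BL c_LSF

/-- one level: few pairs of a form and a window with a zero -/
theorem c_Z1 : Pool.Agent.H27.ZF.T_Z1 :=
  Pool.Agent.H87.ZF.pf_Z1 pf_EUL c_LSF c_BS c_BD c_BL c_NZR

/-- a lower bound for the L-function -/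
theorem c_NZL : Pool.Agent.H78.ZF.T_NZL :=
  Pool.Agent.H78.ZF.pf_NZL Pool.Agent.H40.ZF.pf_HTC c_PRD Pool.Agent.H69.ZF.pf_EPR
    Pool.Agent.H5.ZF.pf_TAI

end Pool.Agent.H55.ZF
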