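import Pool.Agent.H55.ZF.All
import Pool.Agent.H87.ZF.Z1L
import Pool.Agent.H78.ZF.TL2

/-!
Board zf (MP_52e316_nt): one level, few windows with large or small values to the right of the line, without
hypotheses.
-/

set_option autoImplicit false

namespace Pool.Agent.H55.ZF

/-- one level: few pairs of a form and a window with a large or a small value to the right of the line -/
theorem c_Z1L : Pool.Agent.H78.ZF.T_Z1L :=
  Pool.Agent.H87.ZF.pf_Z1L pf_EUL c_LSF c_BS c_BD c_BL c_NZL

end Pool.Agent.H55.ZF
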