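import Pool.Agent.H27.L1.H34.GA.Defs
import Pool.Agent.H27.L1.H67.GZ.IDX

/-!
Board zf (MP_52e316_nt): the Hecke eigenvalues of a form and the sublattices of `Z ^ m`;
multiplicativity and rationality.
-/

set_option autoImplicit false

namespace Pool.Agent.H55.ZF

open Pool.Agent.H27.L1.H34.GM Pool.Agent.H27.L1.H34.GZ Pool.Agent.H27.L1.H34.GU
open Pool.Agent.H27.L1.H34.GA Pool.Agent.H27.L1.H67.GZ

/-- the row lattice -/
noncomputable abbrev clo {m : ℕ} (x : ZM m) : AddSubgroup (Fin m → ℤ) :=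
  AddSubgroup.closure (Set.range x)

open Classical in
/-- a basis of a lattice -/
noncomputable def bs {m : ℕ} (L : AddSubgroup (Fin m → ℤ)) : ZM m :=
  if h : L.index ≠ 0 then (idx2 L h).choose else 0

lemma bs_det {m : ℕ} {L : AddSubgroup (Fin m → ℤ)} (h : L.index ≠ 0) : (bs L).det ≠ 0 := by
  unfold bs
  rw [dif_pos h]
  exact (idx2 L h).choose_spec.1

lemma bs_clo {m : ℕ} {L : AddSubgroup (Fin m → ℤ)} (h : L.index ≠ 0) : clo (bs L) = L := by
  unfold bs
  rw [dif_pos h]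
  exact (idx2 L h).choose_spec.2

/-- the function on the lattices attached to a function on the bases -/
noncomputable def fL {m : ℕ} (φ : ZM m → ℂ) (L : AddSubgroup (Fin m → ℤ)) : ℂ := φ (bs L)

lemma fL_clo {m : ℕ} {φ : ZM m → ℂ} (hφ : ∀ γ β : ZM m, IsUnit γ → β.det ≠ 0 → φ (γ * β) = φ β)
    {β : ZM m} (hβ : β.det ≠ 0) : fL φ (clo β) = φ β := by
  have h0 : (clo β).index ≠ 0 := by
    rw [idx1 β hβ]
    exact Int.natAbs_ne_zero.2 hβ
  obtain ⟨u, hu, hu2⟩ := (idx4 β (bs (clo β)) hβ).1 (bs_clo h0).symm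
  unfold fL
  rw [hu2]
  exact hφ u β hu hβ

open Classical in
/-- the sublattices of `L` of relative index `n` -/
noncomputable def SL {m : ℕ} (T : ℕ → Finset (ZM m)) (L : AddSubgroup (Fin m → ℤ)) (n : ℕ) :
    Finset (AddSubgroup (Fin m → ℤ)) := (T n).image fun α => clo (α * bs L)

lemma mem_SL {m : ℕ} {T : ℕ → Finset (ZM m)} (hT : RepsZ m T) {L L' : AddSubgroup (Fin m → ℤ)}
    (hL : L.index ≠ 0) {n : ℕ} (hn : 1 ≤ n) :
    L' ∈ SL T L n ↔ L' ≤ L ∧ L'.index = n * L.index := by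
  classical
  have hβ := bs_det hL
  have hc := bs_clo hL
  have hi : (bs L).det.natAbs = L.index := by rw [← idx1 _ hβ]; exact congrArg _ hc
  unfold SL
  rw [Finset.mem_image]
  constructor
  · rintro ⟨α, hα, rfl⟩
    have h1 := hT.mem n hn α hα
    have h2 : (α * bs L).det ≠ 0 := by
      rw [Matrix.det_mul]
      refine mul_ne_zero ?_ hβ
      intro h
      rw [h] at h1
      simp only [Int.natAbs_zero] at h1
      omega
    refine ⟨?_, ?_⟩
    · rw [AddSubgroup.closure_le]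
      rintro _ ⟨i, rfl⟩
      have := (idx3 (bs L) (α * bs L)).2 ⟨α, rfl⟩ i
      change (α * bs L) i ∈ clo (bs L) at this
      rw [hc] at this
      exact this
    · rw [idx1 _ h2, Matrix.det_mul, Int.natAbs_mul, h1, hi]
  · rintro ⟨h1, h2⟩
    have h0 : L'.index ≠ 0 := by
      rw [h2]
      exact mul_ne_zero (by omega) hL
    obtain ⟨x, hx, hx2⟩ := idx2 L' h0
    obtain ⟨u, hu⟩ := (idx3 (bs L) x).1 (fun i => by
      change x i ∈ clo (bs L)
      rw [hc]
      refine h1 ?_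
      rw [← hx2]
      exact mem_clo x i)
    have hu2 : u.det.natAbs = n := by
      have h3 : x.det.natAbs = n * L.index := by rw [← idx1 x hx, hx2, h2]
      rw [hu, Matrix.det_mul, Int.natAbs_mul, hi] at h3
      exact Nat.eq_of_mul_eq_mul_right (Nat.pos_of_ne_zero hL) h3
    obtain ⟨α, ⟨hα, γ, hγ, hγ2⟩, -⟩ := hT.uniq n hn u hu2
    refine ⟨α, hα, ?_⟩
    have h3 : (α * bs L).det ≠ 0 := by
      rw [Matrix.det_mul]
      refine mul_ne_zero ?_ hβ
      intro h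
      have := hT.mem n hn α hα
      rw [h] at this
      simp only [Int.natAbs_zero] at this
      omega
    rw [← hx2]
    exact (idx4 (α * bs L) x h3).2 ⟨γ, hγ, by rw [hu, hγ2, Matrix.mul_assoc]⟩

lemma sum_SL {m : ℕ} {T : ℕ → Finset (ZM m)} (hT : RepsZ m T) {φ : ZM m → ℂ}
    (hφ : ∀ γ β : ZM m, IsUnit γ → β.det ≠ 0 → φ (γ * β) = φ β) {L : AddSubgroup (Fin m → ℤ)}
    (hL : L.index ≠ 0) {n : ℕ} (hn : 1 ≤ n) :
    ∑ L' ∈ SL T L n, fL φ L' = ∑ α ∈ T n, φ (α * bs L) := by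
  classical
  have hβ := bs_det hL
  have hd : ∀ α ∈ T n, (α * bs L).det ≠ 0 := by
    intro α hα
    rw [Matrix.det_mul]
    refine mul_ne_zero ?_ hβ
    intro h
    have := hT.mem n hn α hα
    rw [h] at this
    simp only [Int.natAbs_zero] at this
    omega
  unfold SL
  rw [Finset.sum_image]
  · refine Finset.sum_congr rfl fun α hα => ?_
    exact fL_clo hφ (hd α hα)
  · intro α hα α' hα' h
    obtain ⟨γ, hγ, hγ2⟩ := (idx4 (α * bs L) (α' * bs L) (hd α hα)).1 h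
    have h1 : α' = γ * α := by
      have h2 : (α' - γ * α) * bs L = 0 := by
        rw [sub_mul, hγ2, Matrix.mul_assoc, sub_self]
      have h3 : (α' - γ * α) * bs L * (bs L).adjugate = 0 := by rw [h2, Matrix.zero_mul]
      rw [Matrix.mul_assoc, Matrix.mul_adjugate, Matrix.mul_smul, Matrix.mul_one] at h3
      exact sub_eq_zero.1 ((smul_eq_zero.1 h3).resolve_left hβ)
    have h4 := (hT.uniq n hn α' (hT.mem n hn α' hα')).unique ⟨hα, γ, hγ, h1⟩
      ⟨hα', 1, isUnit_one, (one_mul _).symm⟩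
    exact h4

/-- the eigenvalues on the lattices -/
theorem hecke_lat {m : ℕ} {T : ℕ → Finset (ZM m)} (hT : RepsZ m T) {φ : ZM m → ℂ} {t : ℕ → ℂ}
    (hφ : ∀ γ β : ZM m, IsUnit γ → β.det ≠ 0 → φ (γ * β) = φ β)
    (hH : ∀ n : ℕ, 1 ≤ n → ∀ β : ZM m, β.det ≠ 0 → ∑ α ∈ T n, φ (α * β) = t n * φ β)
    {L : AddSubgroup (Fin m → ℤ)} (hL : L.index ≠ 0) {n : ℕ} (hn : 1 ≤ n) :
    ∑ L' ∈ SL T L n, fL φ L' = t n * fL φ L := by
  rw [sum_SL hT hφ hL hn]
  exact hH n hn (bs L) (bs_det hL)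

lemma nsmul_mem_index {m : ℕ} (L : AddSubgroup (Fin m → ℤ)) (v : Fin m → ℤ) :
    L.index • v ∈ L := AddSubgroup.nsmul_index_mem L v

lemma eq_of_le_index {m : ℕ} {L L' : AddSubgroup (Fin m → ℤ)} (h : L ≤ L') (h0 : L.index ≠ 0)
    (hi : L.index = L'.index) : L = L' := by
  have h1 := AddSubgroup.relIndex_mul_index h
  have h2 : L.relIndex L' = 1 := by
    have h3 : L'.index ≠ 0 := by rw [← hi]; exact h0
    rw [hi] at h1
    exact Nat.eq_of_mul_eq_mul_right (Nat.pos_of_ne_zero h3) (by rw [h1, one_mul])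
  exact le_antisymm h (AddSubgroup.relIndex_eq_one.1 h2)

/-- the lattice `L + n Z ^ m` -/
noncomputable def plus {m : ℕ} (L : AddSubgroup (Fin m → ℤ)) (n : ℕ) : AddSubgroup (Fin m → ℤ) :=
  L ⊔ AddSubgroup.map (nsmulAddMonoidHom n : (Fin m → ℤ) →+ (Fin m → ℤ)) ⊤

lemma mem_plus {m : ℕ} {L : AddSubgroup (Fin m → ℤ)} {n : ℕ} {v : Fin m → ℤ} :
    v ∈ plus L n ↔ ∃ l ∈ L, ∃ w : Fin m → ℤ, v = l + n • w := by
  unfold plus
  rw [AddSubgroup.mem_sup]
  constructor
  · rintro ⟨l, hl, x, hx, rfl⟩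
    obtain ⟨w, -, rfl⟩ := hx
    exact ⟨l, hl, w, rfl⟩
  · rintro ⟨l, hl, w, rfl⟩
    exact ⟨l, hl, n • w, ⟨w, trivial, rfl⟩, rfl⟩

lemma le_plus {m : ℕ} {L : AddSubgroup (Fin m → ℤ)} {n : ℕ} : L ≤ plus L n := le_sup_left

lemma nsmul_mem_plus {m : ℕ} {L : AddSubgroup (Fin m → ℤ)} {n : ℕ} (w : Fin m → ℤ) :
    n • w ∈ plus L n := mem_plus.2 ⟨0, L.zero_mem, w, by rw [zero_add]⟩

lemma plus_le {m : ℕ} {L L' : AddSubgroup (Fin m → ℤ)} {n : ℕ} (h : L ≤ L')
    (h2 : ∀ w : Fin m → ℤ, n • w ∈ L') : plus L n ≤ L' := by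
  intro v hv
  obtain ⟨l, hl, w, rfl⟩ := mem_plus.1 hv
  exact L'.add_mem (h hl) (h2 w)

lemma idx_dvd_pow {m : ℕ} {L : AddSubgroup (Fin m → ℤ)} {n : ℕ} (hn : n ≠ 0)
    (h : ∀ w : Fin m → ℤ, n • w ∈ L) : L.index ∣ n ^ m := by
  have hd : ((n : ℤ) • (1 : ZM m)).det = (n : ℤ) ^ m := by
    rw [Matrix.det_smul, Matrix.det_one, mul_one, Fintype.card_fin]
  have h0 : ((n : ℤ) • (1 : ZM m)).det ≠ 0 := by
    rw [hd]
    exact pow_ne_zero _ (by exact_mod_cast hn)
  have h1 := idx1 _ h0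
  rw [hd] at h1
  have h2 : ((n : ℤ) ^ m).natAbs = n ^ m := by
    rw [Int.natAbs_pow, Int.natAbs_natCast]
  rw [h2] at h1
  rw [← h1]
  refine AddSubgroup.index_dvd_of_le ?_
  rw [AddSubgroup.closure_le]
  rintro _ ⟨i, rfl⟩
  have h3 := h ((1 : ZM m) i)
  change ((n : ℤ) • ((1 : ZM m) i)) ∈ L
  rw [natCast_zsmul]
  exact h3

/-- the index of `L + a Z ^ m` for a lattice of index `a b`, `a` and `b` coprime -/
lemma idx_plus {m : ℕ} {L : AddSubgroup (Fin m → ℤ)} {a b : ℕ} (ha : 1 ≤ a) (hb : 1 ≤ b)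
    (hab : a.Coprime b) (hL : L.index = a * b) : (plus L a).index = a := by
  have hdiv : ∀ c d : ℕ, 1 ≤ c → c.Coprime d → L.index = c * d → (plus L c).index ∣ c := by
    intro c d hc hcd hi
    have h1 : (plus L c).index ∣ c * d := by
      rw [← hi]
      exact AddSubgroup.index_dvd_of_le le_plus
    have h2 : (plus L c).index ∣ c ^ m := idx_dvd_pow (by omega) (fun w => nsmul_mem_plus w)
    have h3 : (plus L c).index.Coprime d := Nat.Coprime.coprime_dvd_left h2 (hcd.pow_left m)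
    exact h3.dvd_of_dvd_mul_right h1
  have h1 := hdiv a b ha hab hL
  have h2 := hdiv b a hb hab.symm (by rw [hL, mul_comm])
  have h3 : plus L a ⊓ plus L b = L := by
    refine le_antisymm ?_ (le_inf le_plus le_plus)
    intro v hv
    obtain ⟨hva, hvb⟩ := AddSubgroup.mem_inf.1 hv
    -- `b v` and `a v` are in `L`
    have key : ∀ c d : ℕ, L.index = c * d → v ∈ plus L c → d • v ∈ L := by
      intro c d hi hc
      obtain ⟨l, hl, w, rfl⟩ := mem_plus.1 hc
      rw [smul_add]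
      refine L.add_mem (L.nsmul_mem hl d) ?_
      rw [← mul_nsmul', mul_comm d c, ← hi]
      exact nsmul_mem_index L w
    have hb1 := key a b hL hva
    have ha1 := key b a (by rw [hL, mul_comm]) hvb
    have hbez := Nat.gcd_eq_gcd_ab a b
    rw [hab.gcd_eq_one] at hbez
    have e : v = (a.gcdA b) • (a • v) + (a.gcdB b) • (b • v) := by
      rw [← natCast_zsmul v a, ← natCast_zsmul v b, smul_smul, smul_smul, ← add_smul]
      rw [mul_comm (a.gcdA b), mul_comm (a.gcdB b), ← hbez]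
      simp
    rw [e]
    exact L.add_mem (L.zsmul_mem ha1 _) (L.zsmul_mem hb1 _)
  have h4 := AddSubgroup.index_inf_le (H := plus L a) (K := plus L b)
  rw [h3, hL] at h4
  have h5 := Nat.le_of_dvd (by omega) h1
  have h6 := Nat.le_of_dvd (by omega) h2
  by_contra hc
  have h7 : (plus L a).index < a := lt_of_le_of_ne h5 hc
  have h8 : (plus L a).index * (plus L b).index < a * b := by
    calc (plus L a).index * (plus L b).index ≤ (plus L a).index * b := Nat.mul_le_mul_left _ h6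
      _ < a * b := Nat.mul_lt_mul_of_pos_right h7 (by omega)
  omega

/-- multiplicativity -/
theorem mul_lat {m : ℕ} {T : ℕ → Finset (ZM m)} (hT : RepsZ m T) {φ : ZM m → ℂ} {t : ℕ → ℂ}
    (hφ : ∀ γ β : ZM m, IsUnit γ → β.det ≠ 0 → φ (γ * β) = φ β)
    (hH : ∀ n : ℕ, 1 ≤ n → ∀ β : ZM m, β.det ≠ 0 → ∑ α ∈ T n, φ (α * β) = t n * φ β)
    (h1 : φ 1 ≠ 0) {a b : ℕ} (ha : 1 ≤ a) (hb : 1 ≤ b) (hab : a.Coprime b) :
    t (a * b) = t a * t b := by
  classical
  have hti : (⊤ : AddSubgroup (Fin m → ℤ)).index ≠ 0 := by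
    rw [AddSubgroup.index_top]
    exact one_ne_zero
  have hti1 : (⊤ : AddSubgroup (Fin m → ℤ)).index = 1 := AddSubgroup.index_top
  have hft : fL φ (⊤ : AddSubgroup (Fin m → ℤ)) = φ 1 := by
    have h2 : (1 : ZM m).det ≠ 0 := by
      rw [Matrix.det_one]
      exact one_ne_zero
    have h3 := fL_clo hφ h2
    have h4 : clo (1 : ZM m) = ⊤ := by
      rw [← AddSubgroup.index_eq_one, idx1 _ h2, Matrix.det_one]
      rfl
    rw [h4] at h3
    exact h3
  have e1 := hecke_lat hT hφ hH hti (n := a * b) (Nat.mul_pos ha hb)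
  have e2 := hecke_lat hT hφ hH hti (n := a) ha
  have e3 : ∑ L ∈ SL T ⊤ a, ∑ L' ∈ SL T L b, fL φ L' = t b * (t a * fL φ ⊤) := by
    rw [← e2, Finset.mul_sum]
    refine Finset.sum_congr rfl fun L hL => ?_
    have h2 := ((mem_SL hT hti ha).1 hL).2
    have hL0 : L.index ≠ 0 := by
      rw [h2, hti1]
      omega
    exact hecke_lat hT hφ hH hL0 hb
  have e4 : ∑ L ∈ SL T ⊤ a, ∑ L' ∈ SL T L b, fL φ L' = ∑ L' ∈ SL T ⊤ (a * b), fL φ L' := by
    have e5 : ∑ L ∈ SL T ⊤ a, ∑ L' ∈ SL T L b, fL φ L' =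
        ∑ L ∈ SL T ⊤ a, ∑ L' ∈ SL T ⊤ (a * b), if L' ≤ L then fL φ L' else 0 := by
      refine Finset.sum_congr rfl fun L hL => ?_
      have h2 := ((mem_SL hT hti ha).1 hL).2
      rw [hti1, mul_one] at h2
      have hL0 : L.index ≠ 0 := by omega
      rw [← Finset.sum_filter]
      refine Finset.sum_congr ?_ fun _ _ => rfl
      ext L'
      rw [Finset.mem_filter, mem_SL hT hL0 hb, mem_SL hT hti (Nat.mul_pos ha hb), hti1, h2]
      constructor
      · rintro ⟨h3, h4⟩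
        exact ⟨⟨le_top, by rw [h4]; ring⟩, h3⟩
      · rintro ⟨⟨_, h4⟩, h3⟩
        exact ⟨h3, by rw [h4]; ring⟩
    rw [e5, Finset.sum_comm]
    refine Finset.sum_congr rfl fun L' hL' => ?_
    have h2 := ((mem_SL hT hti (Nat.mul_pos ha hb)).1 hL').2
    rw [hti1, mul_one] at h2
    have hp := idx_plus ha hb hab h2
    have hmem : plus L' a ∈ SL T ⊤ a := by
      rw [mem_SL hT hti ha, hp, hti1, mul_one]
      exact ⟨le_top, rfl⟩
    rw [Finset.sum_eq_single (plus L' a)]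
    · rw [if_pos le_plus]
    · intro L hL hne
      rw [if_neg]
      intro hle
      have h3 := ((mem_SL hT hti ha).1 hL).2
      rw [hti1, mul_one] at h3
      refine hne (eq_of_le_index (plus_le hle ?_) ?_ ?_).symm
      · intro w
        rw [← h3]
        exact nsmul_mem_index L w
      · rw [hp]
        omega
      · rw [hp, h3]
    · intro h
      exact absurd hmem h
  rw [e3, e1, hft] at e4
  have e5 : (t (a * b) - t a * t b) * φ 1 = 0 := by
    rw [sub_mul]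
    linear_combination -e4
  exact sub_eq_zero.1 ((mul_eq_zero.1 e5).resolve_right h1)

end Pool.Agent.H55.ZF
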