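import Pool.Agent.H55.ZF.LAT
import Pool.Agent.H27.ZF.TA

/-!
Board zf (MP_52e316_nt): rationality of the local factors, and the Euler product.
-/

set_option autoImplicit false

namespace Pool.Agent.H55.ZF

open Pool.Agent.H27.L1.H34.GM Pool.Agent.H27.L1.H34.GZ Pool.Agent.H27.L1.H34.GU
open Pool.Agent.H27.L1.H34.GA Pool.Agent.H27.L1.H67.GZ

open Classical in
/-- Moebius function of a finite ordered set -/
lemma mob {α : Type} [Fintype α] [PartialOrder α] (e : α) :
    ∃ c : α → ℂ, c e = 1 ∧ ∀ M, M ≠ e → ∑ L ∈ Finset.univ.filter (fun L => M ≤ L), c L = 0 := by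
  have hwf : WellFounded (fun a b : α => b < a) := wellFounded_gt
  obtain ⟨c, hc⟩ : ∃ c : α → ℂ, ∀ M, c M = if M = e then 1 else
      -∑ L : {L : α // M < L}, c L.1 := by
    refine ⟨hwf.fix (fun M ih => if M = e then 1 else -∑ L : {L : α // M < L}, ih L.1 L.2), ?_⟩
    intro M
    rw [WellFounded.fix_eq]
  refine ⟨c, ?_, ?_⟩
  · rw [hc, if_pos rfl]
  · intro M hM
    have h1 : Finset.univ.filter (fun L : α => M ≤ L) =
        insert M (Finset.univ.filter (fun L : α => M < L)) := by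
      ext L
      rw [Finset.mem_filter, Finset.mem_insert, Finset.mem_filter]
      constructor
      · rintro ⟨_, h⟩
        rcases eq_or_lt_of_le h with h | h
        · exact Or.inl h.symm
        · exact Or.inr ⟨Finset.mem_univ _, h⟩
      · rintro (h | ⟨_, h⟩)
        · exact ⟨Finset.mem_univ _, h.symm.le⟩
        · exact ⟨Finset.mem_univ _, h.le⟩
    have h2 : ∑ L : {L : α // M < L}, c L.1 = ∑ L ∈ Finset.univ.filter (fun L : α => M < L), c L :=
      (Finset.sum_subtype (Finset.univ.filter (fun L : α => M < L)) (fun L => by simp) c).symm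
    have h3 := hc M
    rw [if_neg hM, h2] at h3
    rw [h1, Finset.sum_insert (by simp), h3]
    ring

/-- Nakayama -/
lemma plus_ne_top {m : ℕ} {L : AddSubgroup (Fin m → ℤ)} {p k : ℕ} (hi : L.index = p ^ k)
    (h1 : L ≠ ⊤) : plus L p ≠ ⊤ := by
  intro h
  have key : ∀ (j : ℕ) (v : Fin m → ℤ), v ∈ plus L (p ^ j) := by
    intro j
    induction j with
    | zero =>
      intro v
      refine mem_plus.2 ⟨0, L.zero_mem, v, ?_⟩
      rw [pow_zero, one_nsmul, zero_add]
    | succ j ih =>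
      intro v
      have h2 : v ∈ plus L p := by
        rw [h]
        exact AddSubgroup.mem_top v
      obtain ⟨l, hl, w, rfl⟩ := mem_plus.1 h2
      obtain ⟨l', hl', w', hw⟩ := mem_plus.1 (ih w)
      refine mem_plus.2 ⟨l + p • l', L.add_mem hl (L.nsmul_mem hl' p), w', ?_⟩
      rw [hw, smul_add, add_assoc, pow_succ, mul_comm, ← mul_nsmul']
  refine h1 ?_
  rw [eq_top_iff]
  intro v _
  obtain ⟨l, hl, w, rfl⟩ := mem_plus.1 (key k v)
  refine L.add_mem hl ?_
  rw [← hi]
  exact nsmul_mem_index L w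

lemma fin_over {m p : ℕ} (hp : p ≠ 0) :
    {L : AddSubgroup (Fin m → ℤ) | ∀ w : Fin m → ℤ, p • w ∈ L}.Finite := by
  have hd : ((p : ℤ) • (1 : ZM m)).det ≠ 0 := by
    rw [Matrix.det_smul, Matrix.det_one, mul_one, Fintype.card_fin]
    exact pow_ne_zero _ (by exact_mod_cast hp)
  refine (idx5 _ hd).1.subset ?_
  intro L hL i
  have h3 := hL ((1 : ZM m) i)
  change ((p : ℤ) • ((1 : ZM m) i)) ∈ L
  rw [natCast_zsmul]
  exact h3

/-- rationality of the local factor -/
theorem rat_lat {m : ℕ} {T : ℕ → Finset (ZM m)} (hT : RepsZ m T) {φ : ZM m → ℂ} {t : ℕ → ℂ}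
    (hφ : ∀ γ β : ZM m, IsUnit γ → β.det ≠ 0 → φ (γ * β) = φ β)
    (hH : ∀ n : ℕ, 1 ≤ n → ∀ β : ZM m, β.det ≠ 0 → ∑ α ∈ T n, φ (α * β) = t n * φ β)
    (h1 : φ 1 ≠ 0) {p : ℕ} (hp : p.Prime) :
    ∃ u : ℕ → ℂ, u 0 = 1 ∧ (∀ j, m < j → u j = 0) ∧
      ∀ k, 1 ≤ k → ∑ j ∈ Finset.range (k + 1), u j * t (p ^ (k - j)) = 0 := by
  classical
  have hp0 : p ≠ 0 := hp.ne_zero
  have hti1 : (⊤ : AddSubgroup (Fin m → ℤ)).index = 1 := AddSubgroup.index_top
  have hti : (⊤ : AddSubgroup (Fin m → ℤ)).index ≠ 0 := by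
    rw [hti1]
    exact one_ne_zero
  have hft : fL φ (⊤ : AddSubgroup (Fin m → ℤ)) = φ 1 := by
    have h2 : (1 : ZM m).det ≠ 0 := by
      rw [Matrix.det_one]
      exact one_ne_zero
    have h3 := fL_clo hφ h2
    have h4 : clo (1 : ZM m) = ⊤ := by
      rw [← AddSubgroup.index_eq_one, idx1 _ h2, Matrix.det_one]
      rfl
    rw [h4] at h3
    exact h3
  -- the lattices over `p Z ^ m`
  have hfin := fin_over (m := m) hp0
  have : Fintype {L : AddSubgroup (Fin m → ℤ) // ∀ w : Fin m → ℤ, p • w ∈ L} :=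
    hfin.fintype
  obtain ⟨e, he⟩ : ∃ e : {L : AddSubgroup (Fin m → ℤ) // ∀ w : Fin m → ℤ, p • w ∈ L},
      e.1 = ⊤ := ⟨⟨⊤, fun w => AddSubgroup.mem_top _⟩, rfl⟩
  obtain ⟨c, hc1, hc2⟩ := mob e
  have hidx : ∀ L : {L : AddSubgroup (Fin m → ℤ) // ∀ w : Fin m → ℤ, p • w ∈ L},
      ∃ j, j ≤ m ∧ L.1.index = p ^ j := fun L =>
    (Nat.dvd_prime_pow hp).1 (idx_dvd_pow hp0 L.2)
  refine ⟨fun j => ∑ L, if L.1.index = p ^ j then c L * fL φ L.1 / φ 1 else 0, ?_, ?_, ?_⟩
  · beta_reduce
    rw [Finset.sum_eq_single e]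
    · rw [if_pos (by rw [he, hti1, pow_zero]), hc1, he, hft, one_mul, div_self h1]
    · intro L _ hL
      rw [if_neg]
      intro h
      rw [pow_zero, AddSubgroup.index_eq_one] at h
      exact hL (Subtype.ext (h.trans he.symm))
    · intro h
      exact absurd (Finset.mem_univ e) h
  · intro j hj
    refine Finset.sum_eq_zero fun L _ => ?_
    rw [if_neg]
    intro h
    obtain ⟨i, hi, hi2⟩ := hidx L
    rw [hi2] at h
    have := Nat.pow_right_injective hp.two_le h
    omega
  · intro k hk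
    -- the sum over the lattices
    have inner : ∀ L : {L : AddSubgroup (Fin m → ℤ) // ∀ w : Fin m → ℤ, p • w ∈ L},
        ∑ j ∈ Finset.range (k + 1), (if L.1.index = p ^ j then t (p ^ (k - j)) * fL φ L.1 else 0) =
        ∑ L' ∈ SL T ⊤ (p ^ k), if L' ≤ L.1 then fL φ L' else 0 := by
      intro L
      obtain ⟨i, hi, hi2⟩ := hidx L
      have hL0 : L.1.index ≠ 0 := by
        rw [hi2]
        exact pow_ne_zero _ hp0
      have hpk : 1 ≤ p ^ k := Nat.one_le_pow _ _ hp.pos
      by_cases hik : i ≤ k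
      · have hpi : 1 ≤ p ^ (k - i) := Nat.one_le_pow _ _ hp.pos
        rw [Finset.sum_eq_single i]
        · rw [if_pos hi2, ← hecke_lat hT hφ hH hL0 hpi, ← Finset.sum_filter]
          refine Finset.sum_congr ?_ fun _ _ => rfl
          ext L'
          rw [Finset.mem_filter, mem_SL hT hL0 hpi, mem_SL hT hti hpk, hti1, hi2, ← pow_add,
            Nat.sub_add_cancel hik, mul_one]
          constructor
          · rintro ⟨h3, h4⟩
            exact ⟨⟨le_top, h4⟩, h3⟩
          · rintro ⟨⟨_, h4⟩, h3⟩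
            exact ⟨h3, h4⟩
        · intro j _ hj
          rw [if_neg]
          intro h
          rw [hi2] at h
          exact hj (Nat.pow_right_injective hp.two_le h).symm
        · intro h
          exact absurd (Finset.mem_range.2 (by omega)) h
      · rw [Finset.sum_eq_zero, Finset.sum_eq_zero]
        · intro L' hL'
          rw [if_neg]
          intro h
          have h3 := ((mem_SL hT hti hpk).1 hL').2
          rw [hti1, mul_one] at h3
          have h4 := AddSubgroup.index_dvd_of_le h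
          rw [h3, hi2] at h4
          exact hik ((Nat.pow_dvd_pow_iff_le_right hp.one_lt).1 h4)
        · intro j hj
          rw [if_neg]
          intro h
          rw [hi2] at h
          have h3 := Nat.pow_right_injective hp.two_le h
          rw [Finset.mem_range] at hj
          omega
    beta_reduce
    have e1 : ∑ j ∈ Finset.range (k + 1), (∑ L : {L : AddSubgroup (Fin m → ℤ) //
        ∀ w : Fin m → ℤ, p • w ∈ L}, if L.1.index = p ^ j then c L * fL φ L.1 / φ 1 else 0) *
        t (p ^ (k - j)) =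
        (φ 1)⁻¹ * ∑ L : {L : AddSubgroup (Fin m → ℤ) // ∀ w : Fin m → ℤ, p • w ∈ L},
          c L * ∑ j ∈ Finset.range (k + 1),
            (if L.1.index = p ^ j then t (p ^ (k - j)) * fL φ L.1 else 0) := by
      simp only [Finset.sum_mul, Finset.mul_sum]
      rw [Finset.sum_comm]
      refine Finset.sum_congr rfl fun L _ => Finset.sum_congr rfl fun j _ => ?_
      split_ifs
      · rw [div_eq_mul_inv]
        ring
      · ring
    rw [e1]
    simp only [inner]
    have e2 : ∑ L : {L : AddSubgroup (Fin m → ℤ) // ∀ w : Fin m → ℤ, p • w ∈ L},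
        c L * ∑ L' ∈ SL T ⊤ (p ^ k), (if L' ≤ L.1 then fL φ L' else 0) =
        ∑ L' ∈ SL T ⊤ (p ^ k), fL φ L' *
          ∑ L ∈ Finset.univ.filter (fun L : {L : AddSubgroup (Fin m → ℤ) //
            ∀ w : Fin m → ℤ, p • w ∈ L} => L' ≤ L.1), c L := by
      simp only [Finset.mul_sum, Finset.sum_filter]
      rw [Finset.sum_comm]
      refine Finset.sum_congr rfl fun L' _ => Finset.sum_congr rfl fun L _ => ?_
      split_ifs <;> ring
    rw [e2, Finset.sum_eq_zero, mul_zero]
    intro L' hL'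
    have hpk : 1 ≤ p ^ k := Nat.one_le_pow _ _ hp.pos
    have h3 := ((mem_SL hT hti hpk).1 hL').2
    rw [hti1, mul_one] at h3
    have hne : L' ≠ ⊤ := by
      intro h
      rw [h, hti1] at h3
      have h4 : p ^ 0 = p ^ k := by rw [pow_zero]; exact h3
      have := Nat.pow_right_injective hp.two_le h4
      omega
    have h4 := plus_ne_top h3 hne
    obtain ⟨M, hM⟩ : ∃ M : {L : AddSubgroup (Fin m → ℤ) // ∀ w : Fin m → ℤ, p • w ∈ L},
        M.1 = plus L' p := ⟨⟨plus L' p, fun w => nsmul_mem_plus w⟩, rfl⟩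
    have h5 := hc2 M (fun h => h4 (by rw [← hM, h, he]))
    have h6 : Finset.univ.filter (fun L : {L : AddSubgroup (Fin m → ℤ) //
        ∀ w : Fin m → ℤ, p • w ∈ L} => L' ≤ L.1) = Finset.univ.filter (fun L => M ≤ L) := by
      ext L
      rw [Finset.mem_filter, Finset.mem_filter]
      refine and_congr_right fun _ => ?_
      rw [← Subtype.coe_le_coe, hM]
      exact ⟨fun h => plus_le h L.2, fun h => le_plus.trans h⟩
    rw [h6, h5, mul_zero]

end Pool.Agent.H55.ZF
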